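import Pool.Agent.K1H89.OR.Main

/-!
# Ordered Ramsey numbers of inflated two-interval matchings versus the triangle

Let the permutation `π` of size `m` be built by inflations (and passing to contained permutations)
from `r` permutations, each of them increasing, decreasing or arbitrary, and let `a` be the product
of the sizes of the arbitrary ones. Then the ordered matching on `n = 2 m` vertices which joins
`i < m` to `m + π i` has ordered Ramsey number at most `16 ^ r * a * 2 l` against the triangle,
where `l` is the ambient size. For bounded `r`, `l ≤ K m` and `a ≤ n ^ (1 - ε)` this is the bound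
`O(n ^ (2 - ε))` asked for.
-/

set_option autoImplicit false

namespace Pool.Agent.Results.MP_c11385_co.InflatedMatchings

open Pool.Agent.Q294.OM Pool.Agent.K1H89.OR

theorem result (r a l m : ℕ) (π : Equiv.Perm (Fin m)) (h : Built r a l m π)
    (M : SimpleGraph (Fin (2 * m))) (hM : MatchingOf π M) :
    orderedRamsey M (⊤ : SimpleGraph (Fin 3)) ≤ 16 ^ r * a * (2 * l) :=
  main h M hM

end Pool.Agent.Results.MP_c11385_co.InflatedMatchings
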